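import Pool.Agent.Helper92.RK.Defs

/-! # Small lemmas on the cube -/

set_option autoImplicit false

open Finset
open Pool.Agent.Helper92.RK

namespace Pool.Agent.Helper68.RK

variable {n : ℕ}

lemma pr_mono {E E' : (Fin n → Bool) → Prop} (h : ∀ x, E x → E' x) : pr E ≤ pr E' := by
  classical
  unfold pr
  apply div_le_div_of_nonneg_right _ (by positivity)
  exact_mod_cast Finset.card_le_card (fun x hx => by
    simp only [Finset.mem_filter, Finset.mem_univ, true_and] at hx ⊢
    exact h x hx)

lemma pr_nonneg (E : (Fin n → Bool) → Prop) : 0 ≤ pr E := by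
  unfold pr
  positivity

lemma pr_or_le (E E' : (Fin n → Bool) → Prop) : pr (fun x => E x ∨ E' x) ≤ pr E + pr E' := by
  classical
  unfold pr
  rw [← add_div]
  apply div_le_div_of_nonneg_right _ (by positivity)
  have : (univ.filter fun x => E x ∨ E' x) ⊆ univ.filter E ∪ univ.filter E' := by
    intro x hx
    simp only [Finset.mem_filter, Finset.mem_univ, true_and, Finset.mem_union] at hx ⊢
    exact hx
  have h2 := (Finset.card_le_card this).trans (Finset.card_union_le _ _)
  have h3 : ((univ.filter fun x => E x ∨ E' x).card : ℝ) ≤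
      (univ.filter E).card + (univ.filter E').card := by exact_mod_cast h2
  refine le_trans (le_of_eq ?_) h3
  congr!

lemma pr_exists_le {ι : Type} (s : Finset ι) (E : ι → (Fin n → Bool) → Prop) :
    pr (fun x => ∃ b ∈ s, E b x) ≤ ∑ b ∈ s, pr (E b) := by
  classical
  induction s using Finset.induction_on with
  | empty =>
    simp only [Finset.notMem_empty, false_and, exists_false, Finset.sum_empty]
    unfold pr
    simp
  | insert a s ha ih =>
    rw [Finset.sum_insert ha]
    refine le_trans (pr_mono (E' := fun x => E a x ∨ ∃ b ∈ s, E b x) ?_) ?_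
    · rintro x ⟨b, hb, hx⟩
      rcases Finset.mem_insert.1 hb with rfl | hb
      · exact Or.inl hx
      · exact Or.inr ⟨b, hb, hx⟩
    · exact (pr_or_le _ _).trans (by linarith)

lemma con_subset {S T : Tm n} (h : S ⊆ T) (hT : Con T) : Con S :=
  fun l hl l' hl' e => hT l (h hl) l' (h hl') e

lemma sat_subset {S T : Tm n} (h : S ⊆ T) {x : Fin n → Bool} (hT : Sat T x) : Sat S x :=
  fun l hl => hT l (h hl)

lemma sat_union {S T : Tm n} {x : Fin n → Bool} : Sat (S ∪ T) x ↔ Sat S x ∧ Sat T x := by
  constructor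
  · intro h
    exact ⟨sat_subset Finset.subset_union_left h, sat_subset Finset.subset_union_right h⟩
  · rintro ⟨h1, h2⟩ l hl
    rcases Finset.mem_union.1 hl with h | h
    · exact h1 l h
    · exact h2 l h

lemma con_of_sat {T : Tm n} {x : Fin n → Bool} (h : Sat T x) : Con T := by
  intro l hl l' hl' e
  have h1 := h l hl
  have h2 := h l' hl'
  rw [e] at h1
  exact Prod.ext e (h1.symm.trans h2)

lemma mem_vr {T : Tm n} {i : Fin n} : i ∈ vr T ↔ ∃ l ∈ T, l.1 = i := by
  unfold vr
  simp only [Finset.mem_image]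

lemma vr_mono {S T : Tm n} (h : S ⊆ T) : vr S ⊆ vr T := Finset.image_subset_image h

lemma mem_vr_of_mem {T : Tm n} {l : Fin n × Bool} (h : l ∈ T) : l.1 ∈ vr T := mem_vr.2 ⟨l, h, rfl⟩

lemma out_subset (T b : Tm n) : out T b ⊆ b := Finset.filter_subset _ _

lemma vr_out {T b : Tm n} {i : Fin n} (h : i ∈ vr (out T b)) : i ∉ vr T := by
  obtain ⟨l, hl, rfl⟩ := mem_vr.1 h
  exact (Finset.mem_filter.1 hl).2

lemma dep_sat (T : Tm n) : Dep (Sat T) (vr T) := by
  intro x y h
  constructor
  · intro hx l hl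
    rw [← h l.1 (mem_vr_of_mem hl)]
    exact hx l hl
  · intro hx l hl
    rw [h l.1 (mem_vr_of_mem hl)]
    exact hx l hl

lemma dep_mono {E : (Fin n → Bool) → Prop} {A B : Finset (Fin n)} (h : A ⊆ B) (hE : Dep E A) :
    Dep E B := fun x y hxy => hE x y fun i hi => hxy i (h hi)

lemma dep_and {E E' : (Fin n → Bool) → Prop} {A : Finset (Fin n)} (h : Dep E A) (h' : Dep E' A) :
    Dep (fun x => E x ∧ E' x) A := fun x y hxy => and_congr (h x y hxy) (h' x y hxy)

lemma dep_avoid {ι : Type} {s : Finset ι} {R : ι → Tm n} {A : Finset (Fin n)}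
    (h : ∀ b ∈ s, vr (R b) ⊆ A) : Dep (Avoid s R) A := by
  intro x y hxy
  constructor
  · intro hx b hb hS
    exact hx b hb ((dep_sat (R b) x y fun i hi => hxy i (h b hb hi)).2 hS)
  · intro hx b hb hS
    exact hx b hb ((dep_sat (R b) x y fun i hi => hxy i (h b hb hi)).1 hS)

lemma card_vr_le (T : Tm n) : (vr T).card ≤ T.card := Finset.card_image_le

lemma card_vr_of_con {T : Tm n} (h : Con T) : (vr T).card = T.card := by
  unfold vr
  apply Finset.card_image_of_injOn
  intro l hl l' hl' e
  exact h l hl l' hl' e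

lemma fl_self (x : Fin n → Bool) (i : Fin n) : fl x i i = !x i := by simp [fl]

lemma fl_ne {x : Fin n → Bool} {i j : Fin n} (h : j ≠ i) : fl x i j = x j := by simp [fl, h]

end Pool.Agent.Helper68.RK
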