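import Pool.Agent.Helper68.RK.Base

set_option autoImplicit false

open Finset
open Pool.Agent.Helper92.RK

namespace Pool.Agent.Helper68.RK

variable {n : ℕ}

lemma rd_out {k : ℕ} {F s : Finset (Tm n)} {T : Tm n} (hF : Read k F) (hs : s ⊆ F) :
    Rd k s (out T) := by
  classical
  intro i
  refine le_trans (Finset.card_le_card ?_) (hF i)
  intro b hb
  rw [Finset.mem_filter] at hb ⊢
  exact ⟨hs hb.1, vr_mono (out_subset T b) hb.2⟩

lemma cmp_of_con {T b : Tm n} {i : Fin n} (h : Con (b ∪ T)) : Cmp T b i := by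
  intro l hl hv _
  obtain ⟨l', hl', e⟩ := mem_vr.1 hv
  have := h l (Finset.mem_union_left _ hl) l' (Finset.mem_union_right _ hl') e.symm
  rw [this]
  exact hl'

lemma ee_subset_bb (F : Finset (Tm n)) (T : Tm n) (l : Fin n × Bool) : EE F T ⊆ BB F T l := by
  classical
  intro b hb
  unfold EE at hb
  unfold BB
  rw [Finset.mem_filter] at hb ⊢
  exact ⟨hb.1, cmp_of_con hb.2.2, Or.inl hb.2.1⟩

lemma bb_not_ee {F : Finset (Tm n)} {T : Tm n} {l : Fin n × Bool} (hT : Con T) (hl : l ∈ T)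
    {b : Tm n} (hbc : Con b) (hb : b ∈ BB F T l) (hbe : b ∉ EE F T) :
    b ∈ F ∧ Cmp T b l.1 ∧ l ∉ b ∧ (T.card ≤ b.card ∨ l.1 ∈ vr b) := by
  classical
  unfold BB at hb
  unfold EE at hbe
  rw [Finset.mem_filter] at hb hbe
  obtain ⟨hbF, hcmp, hor⟩ := hb
  refine ⟨hbF, hcmp, ?_⟩
  by_cases hlt : b.card < T.card
  · have hnc : ¬ Con (b ∪ T) := fun h => hbe ⟨hbF, hlt, h⟩
    unfold Pool.Agent.Helper92.RK.Con at hnc
    push Not at hnc
    obtain ⟨l1, h1, l2, h2, e12, hne⟩ := hnc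
    -- a conflict between `b` and `T`
    have key : ∀ l1 ∈ b, ∀ l2 ∈ T, l1.1 = l2.1 → l1 ≠ l2 → l ∉ b ∧ l.1 ∈ vr b := by
      intro l1 h1 l2 h2 e12 hne
      have hv : l1.1 ∈ vr T := by
        rw [e12]
        exact mem_vr_of_mem h2
      have hi : l1.1 = l.1 := by
        by_contra hi
        have h1T := hcmp l1 h1 hv hi
        exact hne (hT l1 h1T l2 h2 e12)
      have h2l : l2 = l := hT l2 h2 l hl (by rw [← e12, hi])
      refine ⟨?_, ?_⟩
      · intro hlb
        have := hbc l1 h1 l hlb hi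
        exact hne (this.trans h2l.symm)
      · rw [← hi]
        exact mem_vr_of_mem h1
    rcases Finset.mem_union.1 h1 with h1 | h1
    · rcases Finset.mem_union.1 h2 with h2 | h2
      · exact absurd (hbc l1 h1 l2 h2 e12) hne
      · obtain ⟨a, c⟩ := key l1 h1 l2 h2 e12 hne
        exact ⟨a, Or.inr c⟩
    · rcases Finset.mem_union.1 h2 with h2 | h2
      · obtain ⟨a, c⟩ := key l2 h2 l1 h1 e12.symm (Ne.symm hne)
        exact ⟨a, Or.inr c⟩
      · exact absurd (hT l1 h1 l2 h2 e12) hne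
  · rcases hor with h | h
    · exact absurd h hlt
    · exact ⟨h, Or.inl (not_lt.1 hlt)⟩

/-- the restricted family -/
lemma avoid_restrict {ι : Type} (hI : S_IND) (hS : S_SAT) (s : Finset ι) (R : ι → Tm n) (ρ : Tm n)
    (hρ : Con ρ) [DecidablePred fun b => Con (R b ∪ ρ)] :
    pr (Avoid (s.filter fun b => Con (R b ∪ ρ)) (fun b => R b \ ρ)) * (1 / 2 : ℝ) ^ ρ.card ≤
      pr (fun x => Avoid s R x ∧ Sat ρ x) := by
  classical
  have hdep : Dep (Avoid (s.filter fun b => Con (R b ∪ ρ)) (fun b => R b \ ρ))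
      (univ \ vr ρ) := by
    apply dep_avoid
    intro b hb i hi
    rw [Finset.mem_filter] at hb
    obtain ⟨l, hl, rfl⟩ := mem_vr.1 hi
    rw [Finset.mem_sdiff] at hl
    rw [Finset.mem_sdiff]
    refine ⟨Finset.mem_univ _, ?_⟩
    intro hv
    obtain ⟨l', hl', e⟩ := mem_vr.1 hv
    have := hb.2 l (Finset.mem_union_left _ hl.1) l' (Finset.mem_union_right _ hl') e.symm
    rw [this] at hl
    exact hl.2 hl'
  have h := hI n _ _ (univ \ vr ρ) (vr ρ) Finset.sdiff_disjoint hdep (dep_sat ρ)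
  rw [hS n ρ hρ] at h
  rw [← h]
  apply pr_mono
  rintro x ⟨h1, h2⟩
  refine ⟨?_, h2⟩
  intro b hb hx
  have hc : Con (R b ∪ ρ) := con_of_sat (sat_union.2 ⟨hx, h2⟩)
  exact h1 b (Finset.mem_filter.2 ⟨hb, hc⟩) (sat_subset Finset.sdiff_subset hx)

theorem cm2 (hCM1 : S_CM1) (hWTB : S_WTB) (hFIX : S_FIX) (hGEN : S_GEN) (hGDI : S_GDI)
    (hI : S_IND) (hS : S_SAT) : S_CM2 := by
  classical
  intro k M δ hδ
  obtain ⟨M1, hM1⟩ := hCM1 k δ hδ
  obtain ⟨M3, hM3, hwtb⟩ := hWTB k M M1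
  have hM4 : 0 ≤ 4 * M3 / δ := by positivity
  obtain ⟨h0, hgen⟩ := hGEN k (4 * M3 / δ) hM4
  refine ⟨Real.exp (-(4 * (4 * M3 / δ))) / 2, by positivity, ?_⟩
  intro h
  obtain ⟨L, q, hfix⟩ := hFIX k (max h h0) M3 δ hδ hM3
  obtain ⟨L0, hgdi⟩ := hGDI k L M
  refine ⟨L0, q, ?_⟩
  intro n F T hR hC hw hT hL0 hneed
  obtain ⟨l, hl, hgood⟩ := hgdi n F T hR hC hw hT hL0
  obtain ⟨hwt1, hpr1⟩ := hM1 n F T hR hC hT hneed
  have hwt3 := hwtb n F T l hR hC hw hT hl hwt1
  have hTc : Con T := hC T hT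
  have hBF : BB F T l ⊆ F := Finset.filter_subset _ _
  obtain ⟨ρ, hρ, hρq, hρv, hρh, hρw⟩ := hfix n (Tm n) (BB F T l) (EE F T) (out T)
    (ee_subset_bb F T l) (fun b hb => con_subset (out_subset T b) (hC b (hBF hb)))
    (rd_out hR hBF) hwt3 hpr1 (fun b hb hbe => by
      obtain ⟨h1, h2, h3, h4⟩ := bb_not_ee hTc hl (hC b (hBF hb)) hb hbe
      exact hgood b h1 h2 h3 h4)
  refine ⟨l, hl, ρ, hρ, ?_, hρq, ?_, ?_⟩
  · rw [Finset.disjoint_left]
    intro i hi
    obtain ⟨b, _, hb⟩ := hρv i hi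
    exact vr_out hb
  · intro b hb hcon
    exact (le_max_left _ _).trans (hρh b hb hcon)
  · have hg := hgen n (Tm n) ((BB F T l).filter fun b => Con (out T b ∪ ρ))
      (fun b => out T b \ ρ) (fun b hb => by
        rw [Finset.mem_filter] at hb
        exact con_subset (Finset.sdiff_subset.trans (out_subset T b)) (hC b (hBF hb.1)))
      (by
        intro i
        refine le_trans (Finset.card_le_card ?_) (hR i)
        intro b hb
        rw [Finset.mem_filter, Finset.mem_filter] at hb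
        rw [Finset.mem_filter]
        exact ⟨hBF hb.1.1, vr_mono (Finset.sdiff_subset.trans (out_subset T b)) hb.2⟩)
      (fun b hb => by
        rw [Finset.mem_filter] at hb
        exact (le_max_right _ _).trans (hρh b hb.1 hb.2))
      (by
        unfold wt
        refine le_trans (le_of_eq ?_) hρw
        apply Finset.sum_congr _ fun _ _ => rfl
        congr!)
    refine le_trans (mul_le_mul_of_nonneg_right hg (by positivity)) ?_
    exact avoid_restrict hI hS (BB F T l) (out T) ρ hρ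

/-- part CM2 -/
theorem CM2.main (hCM1 : S_CM1) (hWTB : S_WTB) (hFIX : S_FIX) (hGEN : S_GEN) (hGDI : S_GDI)
    (hI : S_IND) (hS : S_SAT) : S_CM2 := cm2 hCM1 hWTB hFIX hGEN hGDI hI hS

end Pool.Agent.Helper68.RK
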