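import Pool.Agent.Helper68.RK.CM2

set_option autoImplicit false

open Finset
open Pool.Agent.Helper92.RK

namespace Pool.Agent.Helper68.RK

variable {n : ℕ}

/-- part CMB -/
theorem CMB.main (hCM2 : S_CM2) (hKIL : S_KIL) (hI : S_IND) (hS : S_SAT) : S_CMB := by
  classical
  intro k M δ hδ
  obtain ⟨c, hc, hcm2⟩ := hCM2 k M δ hδ
  obtain ⟨h1, c', hc', hkil⟩ := hKIL k c hc
  obtain ⟨L0, q, hcm⟩ := hcm2 (h1 + k)
  refine ⟨L0, q + 2 * k, c', hc', ?_⟩
  intro n F T hR hC hw hT hL0 hneed
  obtain ⟨l, hl, ρ0, hρ0, hdis, hq, hlong, hpr⟩ := hcm n F T hR hC hw hT hL0 hneed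
  have hTc : Con T := hC T hT
  -- the short compatible terms which touch `l.1`
  set F1 : Finset (Tm n) := F.filter fun b => l.1 ∈ vr b with hF1
  have hF1k : F1.card ≤ k := hR l.1
  set K : Finset (Tm n) := (F1.filter fun b => b.card < T.card ∧ Cmp T b l.1).image (out T)
    with hK
  have hKk : K.card ≤ k :=
    Finset.card_image_le.trans ((Finset.card_le_card (Finset.filter_subset _ _)).trans hF1k)
  obtain ⟨σ, hρσ, hσ, hσc, hσv, hσK, hσp⟩ := hkil n (Avoid (BB F T l) (out T)) ρ0 K hρ0 hKk hpr
  have hKin : ∀ b ∈ F1, b.card < T.card → Cmp T b l.1 → ¬ Con (out T b ∪ σ) := by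
    intro b hb hlt hcmp hcon
    have hbF : b ∈ F := (Finset.mem_filter.1 hb).1
    have hbBB : b ∈ BB F T l := by
      unfold BB
      exact Finset.mem_filter.2 ⟨hbF, hcmp, Or.inl hlt⟩
    have hmem : out T b ∈ K :=
      Finset.mem_image_of_mem _ (Finset.mem_filter.2 ⟨hb, hlt, hcmp⟩)
    rcases hσK _ hmem with h | h
    · exact h hcon
    · have h2 := hlong b hbBB (con_subset (Finset.union_subset_union_right hρσ) hcon)
      -- `|out T b \ ρ0| ≤ |out T b \ σ| + |σ \ ρ0|`
      have h3 : (out T b \ ρ0).card ≤ (out T b \ σ).card + (σ \ ρ0).card := by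
        have : out T b \ ρ0 ⊆ (out T b \ σ) ∪ (σ \ ρ0) := by
          intro x hx
          rw [Finset.mem_sdiff] at hx
          rw [Finset.mem_union, Finset.mem_sdiff, Finset.mem_sdiff]
          by_cases hxs : x ∈ σ
          · exact Or.inr ⟨hxs, hx.2⟩
          · exact Or.inl ⟨hx.1, hxs⟩
        exact (Finset.card_le_card this).trans (Finset.card_union_le _ _)
      have h4 : (σ \ ρ0).card + ρ0.card = σ.card := Finset.card_sdiff_add_card_eq_card hρσ
      omega
  -- variables of `σ` are outside of `T`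
  have hσT : Disjoint (vr σ) (vr T) := by
    rw [Finset.disjoint_left]
    intro i hi hiT
    rcases hσv i hi with h | ⟨S, hSK, hiS⟩
    · exact Finset.disjoint_left.1 hdis h hiT
    · rw [hK, Finset.mem_image] at hSK
      obtain ⟨b, _, rfl⟩ := hSK
      exact vr_out hiS hiT
  -- opposite literals for the non-compatible terms
  set F2 : Finset (Tm n) := F1.filter fun b => ¬ Cmp T b l.1 with hF2
  have hex : ∀ b ∈ F2, ∃ l2 ∈ T, l2.1 ≠ l.1 ∧ ∃ l3 ∈ b, l3.1 = l2.1 ∧ l3 ≠ l2 := by
    intro b hb
    have hn := (Finset.mem_filter.1 hb).2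
    unfold Cmp at hn
    push Not at hn
    obtain ⟨l3, h3, hv, hne, hnT⟩ := hn
    obtain ⟨l2, h2, e⟩ := mem_vr.1 hv
    refine ⟨l2, h2, ?_, l3, h3, e.symm, ?_⟩
    · rw [e]
      exact hne
    · intro h
      rw [h] at hnT
      exact hnT h2
  have hne0 : Nonempty (Fin n × Bool) := ⟨l⟩
  choose! g hg1 hg2 hg3 using hex
  set ρT : Tm n := F2.image g with hρT
  have hρTk : ρT.card ≤ k :=
    Finset.card_image_le.trans ((Finset.card_le_card (Finset.filter_subset _ _)).trans hF1k)
  have hρTT : ρT ⊆ T := by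
    intro x hx
    rw [hρT, Finset.mem_image] at hx
    obtain ⟨b, hb, rfl⟩ := hx
    exact hg1 b hb
  have hlT : l.1 ∈ vr T := mem_vr_of_mem hl
  have hTσ : T ∪ (σ ∪ ρT) = T ∪ σ := by
    ext x
    simp only [Finset.mem_union]
    constructor
    · rintro (h | h | h)
      · exact Or.inl h
      · exact Or.inr h
      · exact Or.inl (hρTT h)
    · rintro (h | h)
      · exact Or.inl h
      · exact Or.inr (Or.inl h)
  have hconTσ : Con (T ∪ σ) := by
    intro a ha b hb e
    rcases Finset.mem_union.1 ha with ha | ha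
    · rcases Finset.mem_union.1 hb with hb | hb
      · exact hTc a ha b hb e
      · exfalso
        apply Finset.disjoint_left.1 hσT (mem_vr_of_mem hb)
        rw [← e]
        exact mem_vr_of_mem ha
    · rcases Finset.mem_union.1 hb with hb | hb
      · exfalso
        apply Finset.disjoint_left.1 hσT (mem_vr_of_mem ha)
        rw [e]
        exact mem_vr_of_mem hb
      · exact hσ a ha b hb e
  refine ⟨l, hl, σ ∪ ρT, ?_, ?_, ?_, ?_, ?_⟩
  · rw [hTσ]
    exact hconTσ
  · intro hv
    obtain ⟨x, hx, e⟩ := mem_vr.1 hv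
    rcases Finset.mem_union.1 hx with hx | hx
    · apply Finset.disjoint_left.1 hσT (mem_vr_of_mem hx)
      rw [e]
      exact hlT
    · rw [hρT, Finset.mem_image] at hx
      obtain ⟨b, hb, rfl⟩ := hx
      exact hg2 b hb e
  · have := Finset.card_union_le σ ρT
    omega
  · intro b hbF hib hcon
    by_contra hlt
    push Not at hlt
    have hb1 : b ∈ F1 := Finset.mem_filter.2 ⟨hbF, hib⟩
    by_cases hcmp : Cmp T b l.1
    · apply hKin b hb1 hlt hcmp
      exact con_subset (Finset.union_subset_union (out_subset T b) Finset.subset_union_left) hcon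
    · have hb2 : b ∈ F2 := Finset.mem_filter.2 ⟨hb1, hcmp⟩
      obtain ⟨l3, h3, e, hne⟩ := hg3 b hb2
      apply hne
      apply hcon l3 (Finset.mem_union_left _ h3) (g b) _ e
      exact Finset.mem_union_right _ (Finset.mem_union_right _ (Finset.mem_image_of_mem g hb2))
  · rw [hTσ]
    have hdisj : Disjoint T σ := by
      rw [Finset.disjoint_left]
      intro a ha hb
      exact Finset.disjoint_left.1 hσT (mem_vr_of_mem hb) (mem_vr_of_mem ha)
    have hdep : Dep (fun x => Avoid (BB F T l) (out T) x ∧ Sat σ x) (univ \ vr T) := by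
      apply dep_and
      · apply dep_avoid
        intro b _ i hi
        exact Finset.mem_sdiff.2 ⟨Finset.mem_univ _, vr_out hi⟩
      · apply dep_mono _ (dep_sat σ)
        intro i hi
        exact Finset.mem_sdiff.2 ⟨Finset.mem_univ _, fun h => Finset.disjoint_left.1 hσT hi h⟩
    have hind := hI n (Sat T) (fun x => Avoid (BB F T l) (out T) x ∧ Sat σ x) (vr T)
      (univ \ vr T) Finset.disjoint_sdiff (dep_sat T) hdep
    rw [hS n T hTc] at hind
    calc c' * (1 / 2 : ℝ) ^ (T ∪ σ).card
        = (1 / 2 : ℝ) ^ T.card * (c' * (1 / 2 : ℝ) ^ σ.card) := by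
          rw [Finset.card_union_of_disjoint hdisj, pow_add]
          ring
      _ ≤ (1 / 2 : ℝ) ^ T.card * pr (fun x => Avoid (BB F T l) (out T) x ∧ Sat σ x) :=
          mul_le_mul_of_nonneg_left hσp (by positivity)
      _ = pr (fun x => Sat T x ∧ (Avoid (BB F T l) (out T) x ∧ Sat σ x)) := hind.symm
      _ ≤ _ := by
          apply pr_mono
          rintro x ⟨hxT, hxA, hxσ⟩
          refine ⟨sat_union.2 ⟨hxT, hxσ⟩, ?_⟩
          intro b hbF hb
          have hlb : l ∉ b := by
            intro hlb
            have e1 := hb l hlb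
            rw [fl_self, hxT l hl] at e1
            cases l.2 <;> simp at e1
          have hcmp : Cmp T b l.1 := by
            intro l' hl' hv hne
            obtain ⟨l2, h2, e⟩ := mem_vr.1 hv
            have e1 := hb l' hl'
            rw [fl_ne hne] at e1
            have e2 := hxT l2 h2
            rw [e] at e2
            have : l' = l2 := Prod.ext e.symm (e1.symm.trans e2)
            rw [this]
            exact h2
          have hbBB : b ∈ BB F T l := by
            unfold BB
            exact Finset.mem_filter.2 ⟨hbF, hcmp, Or.inr hlb⟩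
          apply hxA b hbBB
          intro l' hl'
          have hv : l'.1 ∉ vr T := (Finset.mem_filter.1 hl').2
          have hne : l'.1 ≠ l.1 := fun h => hv (by rw [h]; exact hlT)
          have e1 := hb l' (out_subset T b hl')
          rwa [fl_ne hne] at e1

end Pool.Agent.Helper68.RK
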