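import Pool.Agent.Helper68.RK.Base

set_option autoImplicit false

open Finset
open Pool.Agent.Helper92.RK

namespace Pool.Agent.Helper68.RK

variable {n : ℕ}

lemma card_filter_var {b : Tm n} (hb : Con b) (A : Finset (Fin n)) :
    (b.filter fun l => l.1 ∈ A).card ≤ A.card := by
  classical
  apply Finset.card_le_card_of_injOn Prod.fst
  · intro l hl
    exact (Finset.mem_filter.1 hl).2
  · intro l hl l' hl' e
    exact hb l (Finset.mem_filter.1 hl).1 l' (Finset.mem_filter.1 hl').1 e

lemma out_union_con {S b : Tm n} (hS : Con S) (hb : Con b) : Con (S ∪ out S b) := by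
  classical
  intro a ha c hc e
  rcases Finset.mem_union.1 ha with ha | ha
  · rcases Finset.mem_union.1 hc with hc | hc
    · exact hS a ha c hc e
    · exfalso
      have := (Finset.mem_filter.1 hc).2
      apply this
      rw [← e]
      exact mem_vr_of_mem ha
  · rcases Finset.mem_union.1 hc with hc | hc
    · exfalso
      have := (Finset.mem_filter.1 ha).2
      apply this
      rw [e]
      exact mem_vr_of_mem hc
    · exact hb a (out_subset S b ha) c (out_subset S b hc) e

lemma out_disjoint (S b : Tm n) : Disjoint S (out S b) := by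
  rw [Finset.disjoint_left]
  intro a ha hb
  exact (Finset.mem_filter.1 hb).2 (mem_vr_of_mem ha)

/-- part MAS -/
theorem MAS.main (hS : S_SAT) : S_MAS := by
  classical
  intro k r c hc
  -- the number `N`
  obtain ⟨N, hN⟩ : ∃ N : ℕ, (k : ℝ) * (1 / 2 : ℝ) ^ N ≤ c / 2 := by
    obtain ⟨N, hN⟩ := exists_pow_lt_of_lt_one (show (0 : ℝ) < c / 2 / (k + 1) by positivity)
      (show (1 / 2 : ℝ) < 1 by norm_num)
    refine ⟨N, ?_⟩
    rw [lt_div_iff₀ (by positivity)] at hN
    have h0 : (0 : ℝ) ≤ (1 / 2 : ℝ) ^ N := by positivity
    nlinarith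
  refine ⟨r + 1 + k * (N + 1 + r), c / 2, by positivity, ?_⟩
  intro n F T ρ l hR hC hT hl hcon hlρ hρr hLng hpr
  set i := l.1 with hi
  set D0 := N + 1 + r with hD0
  set B0 : Finset (Tm n) := F.filter fun b => i ∈ vr b ∧ Con (b ∪ ρ) ∧ (b \ T).card < D0 with hB0
  set U : Finset (Fin n) := vr ρ ∪ {i} ∪ B0.biUnion (fun b => vr (T \ b)) with hU
  have hTc : Con T := hC T hT
  refine ⟨U, ?_, ?_⟩
  · have h1 : (B0.biUnion (fun b => vr (T \ b))).card ≤ B0.card * D0 := by
      apply Finset.card_biUnion_le_card_mul
      intro b hb
      rw [hB0, Finset.mem_filter] at hb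
      obtain ⟨hbF, hib, hbc, hlt⟩ := hb
      have h2 := hLng b hbF hib hbc
      have h3 := Finset.card_sdiff_add_card_inter T b
      have h4 := Finset.card_sdiff_add_card_inter b T
      rw [Finset.inter_comm] at h4
      have h5 := card_vr_le (T \ b)
      omega
    have h2 : B0.card ≤ k := by
      refine le_trans (Finset.card_le_card ?_) (hR i)
      intro b hb
      rw [hB0, Finset.mem_filter] at hb
      exact Finset.mem_filter.2 ⟨hb.1, hb.2.1⟩
    have h3 : (vr ρ ∪ {i}).card ≤ r + 1 := by
      refine (Finset.card_union_le _ _).trans ?_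
      have := card_vr_le ρ
      simp only [Finset.card_singleton]
      omega
    have h4 := Finset.card_union_le (vr ρ ∪ {i}) (B0.biUnion (fun b => vr (T \ b)))
    have h5 : B0.card * D0 ≤ k * D0 := Nat.mul_le_mul_right _ h2
    rw [← hU] at h4
    omega
  · intro l' hl' hj
    set j := l'.1 with hjdef
    have hji : j ≠ i := by
      intro h
      apply hj
      rw [hU, h]
      simp
    have hjρ : j ∉ vr ρ := by
      intro h
      apply hj
      rw [hU]
      exact Finset.mem_union_left _ (Finset.mem_union_left _ h)
    refine ⟨fun h => hji (by rw [hjdef, h]), hjρ, ?_⟩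
    set S : Tm n := T ∪ ρ with hSdef
    set Bad : Finset (Tm n) := F.filter fun b => i ∈ vr b ∧ N ≤ (out S b).card with hBad
    have hcover : ∀ x, (Sat S x ∧ ∀ b ∈ F, ¬ Sat b (fl x i)) →
        ((Sat S x ∧ DD F i j x ≠ 0) ∨ ∃ b ∈ Bad, Sat (S ∪ out S b) x) := by
      rintro x ⟨hx, hxF⟩
      by_cases hDD : DD F i j x = 0
      · right
        obtain ⟨hxT, hxρ⟩ := sat_union.1 hx
        have hv1 : vi F x = 1 := by
          unfold vi
          rw [if_pos ⟨T, hT, hxT⟩]
        have hv2 : vi F (fl x i) = 0 := by
          unfold vi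
          rw [if_neg]
          rintro ⟨b, hb, hb'⟩
          exact hxF b hb hb'
        have hv3 : val F (fl x j) ∧ ¬ val F (fl (fl x i) j) := by
          unfold DD at hDD
          rw [hv1, hv2] at hDD
          by_cases h3 : val F (fl x j)
          · refine ⟨h3, ?_⟩
            intro h4
            unfold vi at hDD
            rw [if_pos h3, if_pos h4] at hDD
            norm_num at hDD
          · exfalso
            unfold vi at hDD
            rw [if_neg h3] at hDD
            split_ifs at hDD <;> norm_num at hDD
        obtain ⟨⟨b, hbF, hb⟩, hnv⟩ := hv3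
        have hib : i ∈ vr b := by
          by_contra hib
          apply hnv
          refine ⟨b, hbF, ?_⟩
          intro l2 h2
          have hne : l2.1 ≠ i := fun h => hib (by rw [← h]; exact mem_vr_of_mem h2)
          have e1 := hb l2 h2
          by_cases hj2 : l2.1 = j
          · rw [hj2, fl_self] at e1
            rw [hj2, fl_self, fl_ne hji]
            exact e1
          · rw [fl_ne hj2] at e1
            rw [fl_ne hj2, fl_ne hne]
            exact e1
        have hρy : Sat ρ (fl x j) := by
          intro l2 h2
          have hne : l2.1 ≠ j := fun h => hjρ (by rw [← h]; exact mem_vr_of_mem h2)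
          rw [fl_ne hne]
          exact hxρ l2 h2
        have hbc : Con (b ∪ ρ) := con_of_sat (sat_union.2 ⟨hb, hρy⟩)
        have hl'b : l' ∉ b := by
          intro h
          have e1 := hb l' h
          rw [← hjdef, fl_self, hjdef, hxT l' hl'] at e1
          cases l'.2 <;> simp at e1
        have hbig : D0 ≤ (b \ T).card := by
          by_contra hlt
          push Not at hlt
          apply hj
          rw [hU]
          apply Finset.mem_union_right
          rw [Finset.mem_biUnion]
          refine ⟨b, ?_, ?_⟩
          · rw [hB0]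
            exact Finset.mem_filter.2 ⟨hbF, hib, hbc, hlt⟩
          · exact mem_vr_of_mem (Finset.mem_sdiff.2 ⟨hl', hl'b⟩)
        have hsub : b \ T ⊆ out S b ∪ (b.filter (fun l2 => l2.1 ∈ ({j} : Finset (Fin n))) ∪
            b.filter (fun l2 => l2.1 ∈ vr ρ)) := by
          intro l2 h2
          obtain ⟨h2b, h2T⟩ := Finset.mem_sdiff.1 h2
          by_cases hvS : l2.1 ∈ vr S
          · obtain ⟨l3, h3, e3⟩ := mem_vr.1 hvS
            rw [hSdef] at h3
            rcases Finset.mem_union.1 h3 with h3 | h3
            · by_cases hj2 : l2.1 = j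
              · apply Finset.mem_union_right
                apply Finset.mem_union_left
                exact Finset.mem_filter.2 ⟨h2b, by rw [hj2]; simp⟩
              · exfalso
                apply h2T
                have e1 := hb l2 h2b
                rw [fl_ne hj2] at e1
                have e2 := hxT l3 h3
                rw [e3] at e2
                have : l2 = l3 := Prod.ext e3.symm (e1.symm.trans e2)
                rw [this]
                exact h3
            · apply Finset.mem_union_right
              apply Finset.mem_union_right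
              refine Finset.mem_filter.2 ⟨h2b, ?_⟩
              rw [← e3]
              exact mem_vr_of_mem h3
          · apply Finset.mem_union_left
            exact Finset.mem_filter.2 ⟨h2b, hvS⟩
        have hbcon : Con b := hC b hbF
        have c1 := card_filter_var hbcon ({j} : Finset (Fin n))
        have c2 := card_filter_var hbcon (vr ρ)
        have c3 := card_vr_le ρ
        rw [Finset.card_singleton] at c1
        have c4 := (Finset.card_le_card hsub).trans (Finset.card_union_le _ _)
        have c5 := Finset.card_union_le (b.filter (fun l2 => l2.1 ∈ ({j} : Finset (Fin n))))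
          (b.filter (fun l2 => l2.1 ∈ vr ρ))
        refine ⟨b, ?_, ?_⟩
        · rw [hBad]
          refine Finset.mem_filter.2 ⟨hbF, hib, ?_⟩
          omega
        · refine sat_union.2 ⟨hx, ?_⟩
          intro l2 h2
          have h2b := out_subset S b h2
          have h2v := (Finset.mem_filter.1 h2).2
          have hne : l2.1 ≠ j := by
            intro h
            apply h2v
            rw [h, hjdef, hSdef]
            exact mem_vr_of_mem (Finset.mem_union_left _ hl')
          have e1 := hb l2 h2b
          rwa [fl_ne hne] at e1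
      · left
        exact ⟨hx, hDD⟩
    have hbound : ∑ b ∈ Bad, pr (Sat (S ∪ out S b)) ≤
        k * ((1 / 2 : ℝ) ^ S.card * (1 / 2 : ℝ) ^ N) := by
      have h1 : ∀ b ∈ Bad, pr (Sat (S ∪ out S b)) ≤ (1 / 2 : ℝ) ^ S.card * (1 / 2 : ℝ) ^ N := by
        intro b hb
        rw [hBad, Finset.mem_filter] at hb
        rw [hS n _ (out_union_con hcon (hC b hb.1)),
          Finset.card_union_of_disjoint (out_disjoint S b), pow_add]
        apply mul_le_mul_of_nonneg_left _ (by positivity)
        exact pow_le_pow_of_le_one (by norm_num) (by norm_num) hb.2.2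
      have h2 : (Bad.card : ℝ) ≤ k := by
        have : Bad.card ≤ k := by
          refine le_trans (Finset.card_le_card ?_) (hR i)
          intro b hb
          rw [hBad, Finset.mem_filter] at hb
          exact Finset.mem_filter.2 ⟨hb.1, hb.2.1⟩
        exact_mod_cast this
      calc ∑ b ∈ Bad, pr (Sat (S ∪ out S b))
          ≤ ∑ _b ∈ Bad, (1 / 2 : ℝ) ^ S.card * (1 / 2 : ℝ) ^ N := Finset.sum_le_sum h1
        _ = Bad.card * ((1 / 2 : ℝ) ^ S.card * (1 / 2 : ℝ) ^ N) := by
            rw [Finset.sum_const, nsmul_eq_mul]
        _ ≤ k * ((1 / 2 : ℝ) ^ S.card * (1 / 2 : ℝ) ^ N) :=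
            mul_le_mul_of_nonneg_right h2 (by positivity)
    have h1 : c * (1 / 2 : ℝ) ^ S.card ≤ pr (fun x => Sat S x ∧ DD F i j x ≠ 0) +
        k * ((1 / 2 : ℝ) ^ S.card * (1 / 2 : ℝ) ^ N) := by
      refine hpr.trans ((pr_mono hcover).trans ((pr_or_le _ _).trans ?_))
      have := (pr_exists_le Bad (fun b x => Sat (S ∪ out S b) x)).trans hbound
      linarith
    have h2 : (k : ℝ) * ((1 / 2 : ℝ) ^ S.card * (1 / 2 : ℝ) ^ N) ≤
        c / 2 * (1 / 2 : ℝ) ^ S.card := by
      have h0 : (0 : ℝ) ≤ (1 / 2 : ℝ) ^ S.card := by positivity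
      nlinarith [mul_le_mul_of_nonneg_right hN h0]
    linarith

end Pool.Agent.Helper68.RK
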